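import Pool.Agent.NE.Defs
import Pool.Agent.BC.Stmts

/-!
# NE: statements of the modules (the docstrings contain the complete proofs)

Throughout: `n` is a time (number of leaves), `t, T, q` are stages (`nn N t` leaves).
-/

set_option autoImplicit false

open Finset Filter Topology

noncomputable section

namespace Pool.Agent.NE

/-! ### combinatorics -/

/-- ANC. With `g i = if i < m then i else s i` (so `anc s m j = g^[j] j`): on `i < N` the map `g`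
fixes `i < m` and decreases `i ≥ m` (if `1 ≤ m`), so `g^[j] j < m` (strong induction:
`g^[k] j ≤ max (m - 1) (j - k)`), and iterating longer does not change the value. Hence
`anc s m j = anc s m (s j)` for `m ≤ j`. The last clause: strong induction on `i`. -/
def AncStmt : Prop := ∀ (s : ℕ → ℕ) (N : ℕ), (∀ i, 1 ≤ i → i < N → s i < i) →
  (∀ m i, i < m → anc s m i = i) ∧
  (∀ m i, 1 ≤ m → i < N → anc s m i < m ∧ anc s m i ≤ i) ∧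
  (∀ m i, 1 ≤ m → m ≤ i → i < N → anc s m i = anc s m (s i)) ∧
  ∀ m m' i, 1 ≤ m → m ≤ m' → i < N → anc s m (anc s m' i) = anc s m i

/-- SPL: `range (n + (N - 1))` is `range n` and the indices `n + k`, `k < N - 1`; `sum_range_add`,
`sum_range_succ'`, `sum_erase_eq_sub` or `add_sum_erase`. -/
def SplStmt : Prop := ∀ (M : Type) [AddCommGroup M] (f : ℕ → M) (n u N : ℕ), u < n → 1 ≤ N →
  ∑ i ∈ range (n + (N - 1)), f i = ∑ i ∈ (range n).erase u, f i + ∑ j ∈ range N, f (ix n u j)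

/-- NNB: `us t ≤ t` (`Nat.unpair_left_le`), `nn N (t + 1) = nn N t + (N t - 1)` (`sum_range_succ`),
so `nn N` is strictly increasing and `t + 1 ≤ nn N t`. For `i ≥ 1` take the largest `t` with
`nn N t ≤ i` (`nn N 0 = 1`). The last clause: every `k` is `us t` for arbitrarily large `t`
(`t = Nat.pair k r ≥ r`). -/
def NnbStmt : Prop := ∀ N : ℕ → ℕ, (∀ t, 2 ≤ N t) →
  (∀ t, us t < nn N t) ∧ (∀ t, t + 1 ≤ nn N t) ∧ (∀ t, nn N (t + 1) = nn N t + (N t - 1)) ∧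
  Monotone (nn N) ∧
  (∀ i, 1 ≤ i → ∃ t m, 1 ≤ m ∧ m < N t ∧ i = nn N t + (m - 1)) ∧
  (∀ t m t' m', 1 ≤ m → m < N t → 1 ≤ m' → m' < N t' →
    nn N t + (m - 1) = nn N t' + (m' - 1) → t = t' ∧ m = m') ∧
  ∀ k r, ∃ t, r ≤ t ∧ us t = k

/-- TRE: the global chain and the weights exist. `σ i` by choice from `NNB` (existence and
uniqueness of `t, m`). `θ 0 = fun _ => 1`, `θ (t + 1) i = θ t i` if `i < nn N t`, `i ≠ us t`,
and `p t (if i = us t then 0 else i - nn N t + 1) * θ t (us t)` otherwise. -/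
def TreStmt : Prop := ∀ (N : ℕ → ℕ) (p : ℕ → ℕ → ℝ) (s : ℕ → ℕ → ℕ), (∀ t, 2 ≤ N t) →
  (∀ t j, j < N t → 0 < p t j) → (∀ t, ∑ j ∈ range (N t), p t j = 1) →
  (∀ t m, 1 ≤ m → m < N t → s t m < m) → ∃ σ θ, Tree N p s σ θ

/-- TRF: `σ i < i`: `ix (nn N t) (us t) (s t m)` is `us t < nn N t` or `nn N t + (s t m - 1)`. The
sum of the weights: `SPL` and `sum`, induction. -/
def TrfStmt : Prop := ∀ (N : ℕ → ℕ) (p : ℕ → ℕ → ℝ) (s : ℕ → ℕ → ℕ) (σ : ℕ → ℕ) (θ : ℕ → ℕ → ℝ),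
  Tree N p s σ θ → (∀ i, 1 ≤ i → σ i < i) ∧ (∀ t i, i < nn N t → 0 < θ t i) ∧
    ∀ t, ∑ i ∈ range (nn N t), θ t i = 1

/-- LOC: the chain inside a block. Strong induction on `j`: for `j < m` both sides are
`ix (nn N t) (us t) j`, which is smaller than `nn N t + (m - 1)`; for `m ≤ j` the index is
`nn N t + (j - 1)`, at least the time `nn N t + (m - 1)`, and `σ` of it is
`ix (nn N t) (us t) (s t j)`; `ANC`. -/
def LocStmt : Prop := ∀ (N : ℕ → ℕ) (p : ℕ → ℕ → ℝ) (s : ℕ → ℕ → ℕ) (σ : ℕ → ℕ) (θ : ℕ → ℕ → ℝ),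
  Tree N p s σ θ → ∀ t m, 1 ≤ m → m ≤ N t →
    (∀ i, i < nn N t → anc σ (nn N t + (m - 1)) i = i) ∧
    ∀ j, j < N t → anc σ (nn N t + (m - 1)) (ix (nn N t) (us t) j) =
      ix (nn N t) (us t) (anc (s t) m j)

/-- CLC: collapsing. (1) One step: by `LOC` with `m = 1` (`anc (s t) 1 j = 0`) the fibre of `us t`
consists of the `ix j`, `j < N t`, the fibre of another `i < nn N t` is `{i}`; use `SPL` for
`fun k => if anc σ (nn N t) k = i then b k else 0`. (2) Composition: for `j < nn N T`: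
`anc σ n j = i` iff `anc σ n (anc σ (nn N t) j) = i` (`ANC`), group by `anc σ (nn N t) j`
(`sum_fiberwise_of_maps_to`). (3) `anc σ (nn N t) j = j` for `j < nn N t`. -/
def ClcStmt : Prop := ∀ (N : ℕ → ℕ) (p : ℕ → ℕ → ℝ) (s : ℕ → ℕ → ℕ) (σ : ℕ → ℕ) (θ : ℕ → ℕ → ℝ),
  Tree N p s σ θ →
    (∀ t b i, i < nn N t → cl N σ (nn N t) (t + 1) b i =
      if i = us t then ∑ j ∈ range (N t), b (ix (nn N t) (us t) j) else b i) ∧
    (∀ n t T b i, 1 ≤ n → n ≤ nn N t → t ≤ T → i < n →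
      cl N σ n T b i = cl N σ n t (cl N σ (nn N t) T b) i) ∧
    ∀ t b i, i < nn N t → cl N σ (nn N t) t b i = b i

/-- MSI: the weights do not depend on the stage. `cl N σ (nn N T) (T + 1) (θ (T + 1)) i = θ T i`
for `i < nn N T` by `CLC` (1) and `Tree.th1, th2, sum`; so `ms n (T + 1) = ms n T` by `CLC` (2)
with `t = T`. Positivity: `θ t j > 0` and `i` itself is in the fibre. -/
def MsiStmt : Prop := ∀ (N : ℕ → ℕ) (p : ℕ → ℕ → ℝ) (s : ℕ → ℕ → ℕ) (σ : ℕ → ℕ) (θ : ℕ → ℕ → ℝ),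
  Tree N p s σ θ →
    (∀ n t T i, 1 ≤ n → n ≤ nn N t → t ≤ T → i < n → ms N σ θ n T i = ms N σ θ n t i) ∧
    (∀ n t i, 1 ≤ n → n ≤ nn N t → i < n → 0 < ms N σ θ n t i) ∧
    ∀ t T i, t ≤ T → i < nn N t → ms N σ θ (nn N t) T i = θ t i

/-- SPS: spreading. (1) `cl n T (sp n T a) i = (∑ over the fibre of i of θ T j) / ms * a i = a i`.
(2) at the stage `T + 1` the coefficient of the child `j` is `p T j` times the coefficient of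
`us T`, the others do not change: `anc σ n (ix j) = anc σ n (anc σ (nn N T) (ix j)) =
anc σ n (us T)` (`LOC`, `m = 1`; `ANC`), `MSI`, `Tree.th1, th2`. (3) `anc σ (nn N t) j = j` and
`ms (nn N t) t j = θ t j`. (4) `0 ≤ sp ≤ 1` for the indicator of `i`: `θ T j ≤ ms n T i`, a sum of
positive numbers which contains it. -/
def SpsStmt : Prop := ∀ (N : ℕ → ℕ) (p : ℕ → ℕ → ℝ) (s : ℕ → ℕ → ℕ) (σ : ℕ → ℕ) (θ : ℕ → ℕ → ℝ),
  Tree N p s σ θ →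
    (∀ n T a i, 1 ≤ n → n ≤ nn N T → i < n → cl N σ n T (sp N σ θ n T a) i = a i) ∧
    (∀ n T a, 1 ≤ n → n ≤ nn N T →
      (∀ j, j < N T → sp N σ θ n (T + 1) a (ix (nn N T) (us T) j) =
        p T j * sp N σ θ n T a (us T)) ∧
      ∀ i, i < nn N T → i ≠ us T → sp N σ θ n (T + 1) a i = sp N σ θ n T a i) ∧
    (∀ t a i, i < nn N t → sp N σ θ (nn N t) t a i = a i) ∧
    ∀ n T i j, 1 ≤ n → n ≤ nn N T → i < n → j < nn N T →
      0 ≤ sp N σ θ n T (fun k => if k = i then 1 else 0) j ∧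
      sp N σ θ n T (fun k => if k = i then 1 else 0) j ≤ 1

/-- VEC: group the sum `∑ j < nn N T` of `J` by `i = anc σ n j < n` (`ANC`, `N := nn N T`). The
second clause: `SPS` (3). -/
def VecStmt : Prop := ∀ (N : ℕ → ℕ) (p : ℕ → ℕ → ℝ) (s : ℕ → ℕ → ℕ) (σ : ℕ → ℕ) (θ : ℕ → ℕ → ℝ),
  Tree N p s σ θ → ∀ (Z : Type) [NormedAddCommGroup Z] [NormedSpace ℝ Z] (L : ℕ → ℕ → Z),
    (∀ n T a, 1 ≤ n → n ≤ nn N T →
      J N L T (sp N σ θ n T a) = ∑ i ∈ range n, a i • S N σ θ L n T i) ∧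
    ∀ t i, i < nn N t → S N σ θ L (nn N t) t i = L t i

/-- SCO: the value of a node is the average of the values of the nodes of the stage `t` below it.
`∑ over the fibre of i of θ T j • L T j`, grouped by `anc σ (nn N t) j = k`
(`anc σ n k = i`, `ANC`), and `∑ over the fibre of k = ms (nn N t) T k • S (nn N t) T k`,
`ms (nn N t) T k = θ t k`, `ms n T i = ms n t i` (`MSI`). -/
def ScoStmt : Prop := ∀ (N : ℕ → ℕ) (p : ℕ → ℕ → ℝ) (s : ℕ → ℕ → ℕ) (σ : ℕ → ℕ) (θ : ℕ → ℕ → ℝ),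
  Tree N p s σ θ → ∀ (Z : Type) [NormedAddCommGroup Z] [NormedSpace ℝ Z] (L : ℕ → ℕ → Z)
    (n t T i : ℕ), 1 ≤ n → n ≤ nn N t → t ≤ T → i < n →
    S N σ θ L n T i = ∑ k ∈ range (nn N t) with anc σ n k = i,
      (θ t k / ms N σ θ n t i) • S N σ θ L (nn N t) T k

/-- ETP: geometric sums; `∏ (1 + x i) ≤ exp (∑ x i) ≤ 1 + 2 ∑ x i` for `∑ x i ≤ 1`
(`Real.add_one_le_exp`, or directly `∏ (1 + x i) ≤ 1 + 2 ∑ x i` by induction on `T`, as long as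
`∑ ≤ 1 / 2`). -/
def EtpStmt : Prop := ∀ t T : ℕ,
  ∑ i ∈ Ico t T, et i ≤ (1 / 2 : ℝ) ^ (t + 2) ∧
  ∏ i ∈ Ico t T, (1 + et i) ≤ 1 + (1 / 2 : ℝ) ^ (t + 1) ∧ 1 ≤ ∏ i ∈ Ico t T, (1 + et i)

/-! ### the norm estimates in `Z` -/

/-- LOS: lower estimates. One step: `J (t + 1) b = ∑_{i < nn N t, i ≠ us t} b i • L t i +
∑_{j < N t} b (ix j) • L (t + 1) (ix j)` (`SPL`, `keep`), and
`J t (cl (nn N t) (t + 1) b) = (the same first sum) + (∑ b (ix j)) • L t (us t)` (`CLC` (1));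
`Step.lo` (the first sum is in `Bs`). Induction on `T` with `CLC` (2): `≤ ∏ (1 + et i) ≤ 2`
(`ETP`). -/
def LosStmt : Prop := ∀ (X Z : Type) [NormedAddCommGroup X] [NormedSpace ℝ X]
  [NormedAddCommGroup Z] [NormedSpace ℝ Z] (Ψ : X →ₗᵢ[ℝ] Z) (N : ℕ → ℕ) (p : ℕ → ℕ → ℝ)
  (s : ℕ → ℕ → ℕ) (σ : ℕ → ℕ) (θ : ℕ → ℕ → ℝ) (L : ℕ → ℕ → Z) (y : ℕ → X) (C M : ℝ),
  Tree N p s σ θ → Vals Ψ N p s L y C M → ∀ (t T : ℕ) (b : ℕ → ℝ), t ≤ T →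
    ‖J N L t (cl N σ (nn N t) T b)‖ ≤ 2 * ‖J N L T b‖

/-- UPS: upper estimates. One step: `SPS` (2) and `SPL` give
`J (T + 1) (sp n (T + 1) a) = b + A • ∑ p T j • L (T + 1) (ix j)`,
`J T (sp n T a) = b + A • L T (us T)`, `b = ∑_{i ≠ us T} sp n T a i • L T i`,
`A = sp n T a (us T)`; `Step.up` with `b + Ψ z ∈ Bs` (`Submodule.span_mono`, image of the span).
Induction on `T`. -/
def UpsStmt : Prop := ∀ (X Z : Type) [NormedAddCommGroup X] [NormedSpace ℝ X]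
  [NormedAddCommGroup Z] [NormedSpace ℝ Z] (Ψ : X →ₗᵢ[ℝ] Z) (N : ℕ → ℕ) (p : ℕ → ℕ → ℝ)
  (s : ℕ → ℕ → ℕ) (σ : ℕ → ℕ) (θ : ℕ → ℕ → ℝ) (L : ℕ → ℕ → Z) (y : ℕ → X) (C M : ℝ),
  Tree N p s σ θ → Vals Ψ N p s L y C M → ∀ (n t T : ℕ) (a : ℕ → ℝ) (z : X), 1 ≤ n →
    n ≤ nn N t → t ≤ T → z ∈ Submodule.span ℝ (y '' Set.Iio t) →
    ‖J N L T (sp N σ θ n T a) + Ψ z‖ ≤
      (∏ i ∈ Ico t T, (1 + et i)) * ‖J N L t (sp N σ θ n t a) + Ψ z‖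

/-- INS: the partial maps inside a block. Let `n = nn N t + (m - 1)`, `c = cl n (t + 1) b`. For
`i < nn N t`, `i ≠ us t` the fibre of `i` is `{i}` (`LOC`), so `sp n (t + 1) c i = b i`. For
`j < N t` the fibre of `anc σ n (ix j)` consists of the `ix j'` with
`anc (s t) m j' = anc (s t) m j` (`LOC`, `ix` is injective on `j < N t`), the weights are
`θ (t + 1) (ix j') = p t j' * θ t (us t)`, so
`sp n (t + 1) c (ix j) = Qs (N t) (p t) (s t) m (fun j => b (ix j)) j`. Hence `Step.inn`. -/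
def InsStmt : Prop := ∀ (X Z : Type) [NormedAddCommGroup X] [NormedSpace ℝ X]
  [NormedAddCommGroup Z] [NormedSpace ℝ Z] (Ψ : X →ₗᵢ[ℝ] Z) (N : ℕ → ℕ) (p : ℕ → ℕ → ℝ)
  (s : ℕ → ℕ → ℕ) (σ : ℕ → ℕ) (θ : ℕ → ℕ → ℝ) (L : ℕ → ℕ → Z) (y : ℕ → X) (C M : ℝ),
  Tree N p s σ θ → Vals Ψ N p s L y C M → ∀ (t m : ℕ) (b : ℕ → ℝ), 1 ≤ m → m < N t →
    ‖J N L (t + 1) (sp N σ θ (nn N t + (m - 1)) (t + 1)
      (cl N σ (nn N t + (m - 1)) (t + 1) b))‖ ≤ C * ‖J N L (t + 1) b‖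

/-! ### the limits -/

/-- RND: one round of returns. Let `λ q = sp (nn N t₀) q (indicator of i)`, so
`S (nn N t₀) q i = J q (λ q)` (`VEC`). For `q ≥ t` let `f q j = 1` if `j < nn N t` and `us r ≠ j`
for all `r ∈ [t, q)`, and `f q j = 0` otherwise. Claim (induction on `q`): there is `z' ` in the
span of `y r`, `r < q`, with `‖J q (fun j => (1 - τ * f q j) * λ q j) - Ψ z'‖ ≤
(∏_{[t, q)} (1 + et)) * ((1 - τ) * d + ∑_{[t, q)} et)`. `q = t`: all `f t j = 1`,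
`z' = (1 - τ) • z`. Step: let `x = us q`, `b` = the terms of `j ≠ x` minus `Ψ z'` (in `Bs`). At
the stage `q + 1` the terms `j ≠ x` are the same (`f (q + 1) j = f q j`, `SPS` (2), `keep`) and
`f (q + 1) (ix j) = 0`, `λ (q + 1) (ix j) = p q j * λ q x`. If `f q x = 0`: `Step.up`, same `z'`.
If `f q x = 1`: `Ret` with `A = λ q x`, `0 ≤ A ≤ 1` (`SPS` (4)) and
`z' + (τ * λ q x) • y q`. Take `T` so large that every `j < nn N t` is `us r` for some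
`r ∈ [t, T)` (`NNB`, finitely many `j`): all `f T j = 0`. `ETP`. -/
def RndStmt : Prop := ∀ (X Z : Type) [NormedAddCommGroup X] [NormedSpace ℝ X]
  [NormedAddCommGroup Z] [NormedSpace ℝ Z] (Ψ : X →ₗᵢ[ℝ] Z) (N : ℕ → ℕ) (p : ℕ → ℕ → ℝ)
  (s : ℕ → ℕ → ℕ) (σ : ℕ → ℕ) (θ : ℕ → ℕ → ℝ) (L : ℕ → ℕ → Z) (y : ℕ → X) (C M τ : ℝ),
  Tree N p s σ θ → Vals Ψ N p s L y C M → 0 < τ → τ ≤ 1 →
  (∀ t, Ret Ψ (Bs Ψ (L t) (nn N t) (us t) (y '' Set.Iio t)) (L t (us t)) (N t) (p t)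
    (fun j => L (t + 1) (ix (nn N t) (us t) j)) (et t) τ (y t)) →
  ∀ (t₀ i t : ℕ) (z : X) (d : ℝ), i < nn N t₀ → t₀ ≤ t → 0 ≤ d →
    z ∈ Submodule.span ℝ (y '' Set.Iio t) → ‖S N σ θ L (nn N t₀) t i - Ψ z‖ ≤ d →
    ∃ T, t ≤ T ∧ ∃ z' ∈ Submodule.span ℝ (y '' Set.Iio T), ‖S N σ θ L (nn N t₀) T i - Ψ z'‖ ≤
      (1 + (1 / 2 : ℝ) ^ (t + 1)) * ((1 - τ) * d + (1 / 2 : ℝ) ^ (t + 2))

/-- CVM: the values of a node come close to `Ψ X`. For `k : ℕ` let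
`P k`: for every `T₀` there are `T ≥ T₀` and `z` in the span of `y r`, `r < T`, with
`‖S (nn N t) T i - Ψ z‖ ≤ ε / 2 + (1 - τ / 2) ^ k * M`. `P 0` with `z = 0`: `S` is an average of
vectors of norm `≤ M`. `P k → P (k + 1)`: with `e` the bound of `P k` and `T₀` so large that
`x = (1 / 2) ^ (T₀ + 1)` satisfies `x * ((1 - τ) * e + 1 + x) ≤ τ * ε / 4`, `RND` gives
`≤ (1 - τ) e + τ ε / 4`, at most the bound of `P (k + 1)`. -/
def CvmStmt : Prop := ∀ (X Z : Type) [NormedAddCommGroup X] [NormedSpace ℝ X]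
  [NormedAddCommGroup Z] [NormedSpace ℝ Z] (Ψ : X →ₗᵢ[ℝ] Z) (N : ℕ → ℕ) (p : ℕ → ℕ → ℝ)
  (s : ℕ → ℕ → ℕ) (σ : ℕ → ℕ) (θ : ℕ → ℕ → ℝ) (L : ℕ → ℕ → Z) (y : ℕ → X) (C M τ : ℝ),
  Tree N p s σ θ → Vals Ψ N p s L y C M → 0 < τ → τ ≤ 1 →
  (∀ t, Ret Ψ (Bs Ψ (L t) (nn N t) (us t) (y '' Set.Iio t)) (L t (us t)) (N t) (p t)
    (fun j => L (t + 1) (ix (nn N t) (us t) j)) (et t) τ (y t)) →
  ∀ (t i : ℕ) (ε : ℝ), i < nn N t → 0 < ε →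
    ∃ T, t ≤ T ∧ ∃ z ∈ Submodule.span ℝ (y '' Set.Iio T), ‖S N σ θ L (nn N t) T i - Ψ z‖ ≤ ε

/-- LIM: the values of the nodes converge. For `n = nn N t`: `S (nn N t) T i = J T (sp (nn N t) T
(indicator of i))` (`VEC`), so by `CVM` and `UPS` (with `-z`) from some stage on
`‖S T i - Ψ z‖ ≤ 2 ε` (`ETP`); so `S T i` is Cauchy in the distance from `Ψ X`: the `z`'s for
`ε = 1/k` form a Cauchy sequence in `X` (`Ψ` isometric), `X` is complete, and `S T i` converges to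
`Ψ` of its limit. For general `n`: `SCO` with `t = n` (`n ≤ nn N n` by `NNB`). -/
def LimStmt : Prop := ∀ (X Z : Type) [NormedAddCommGroup X] [NormedSpace ℝ X] [CompleteSpace X]
  [NormedAddCommGroup Z] [NormedSpace ℝ Z] (Ψ : X →ₗᵢ[ℝ] Z) (N : ℕ → ℕ) (p : ℕ → ℕ → ℝ)
  (s : ℕ → ℕ → ℕ) (σ : ℕ → ℕ) (θ : ℕ → ℕ → ℝ) (L : ℕ → ℕ → Z) (y : ℕ → X) (C M τ : ℝ),
  Tree N p s σ θ → Vals Ψ N p s L y C M → 0 < τ → τ ≤ 1 →
  (∀ t, Ret Ψ (Bs Ψ (L t) (nn N t) (us t) (y '' Set.Iio t)) (L t (us t)) (N t) (p t)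
    (fun j => L (t + 1) (ix (nn N t) (us t) j)) (et t) τ (y t)) →
  ∃ Y : ℕ → ℕ → X, ∀ n i, i < n → Tendsto (fun T => S N σ θ L n T i) atTop (𝓝 (Ψ (Y n i)))

/-- BIN: the limit is a binary martingale. The fibre of `σ n` at the time `n` is the disjoint union
of the fibres of `σ n` and `n` at the time `n + 1`, the other fibres do not change
(`anc σ n j = anc σ n (anc σ (n + 1) j)`, `anc σ n n = σ n`, `anc σ n k = k` for `k < n`: `ANC`),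
so `ms n T (σ n) = ms (n + 1) T (σ n) + ms (n + 1) T n` and
`ms n T (σ n) • S n T (σ n) = ms (n + 1) T (σ n) • S (n + 1) T (σ n) + ms (n + 1) T n •
S (n + 1) T n` for every `T` with `n + 1 ≤ nn N T`; `MSI`, `NNB` (`n + 1 ≤ nn N n`), and the limit
`T → ∞` (`Ψ` is linear and injective). Bound: `S n T i` is an average. -/
def BinStmt : Prop := ∀ (X Z : Type) [NormedAddCommGroup X] [NormedSpace ℝ X]
  [NormedAddCommGroup Z] [NormedSpace ℝ Z] (Ψ : X →ₗᵢ[ℝ] Z) (N : ℕ → ℕ) (p : ℕ → ℕ → ℝ)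
  (s : ℕ → ℕ → ℕ) (σ : ℕ → ℕ) (θ : ℕ → ℕ → ℝ) (L : ℕ → ℕ → Z) (M : ℝ) (Y : ℕ → ℕ → X),
  Tree N p s σ θ → (∀ t i, i < nn N t → ‖L t i‖ ≤ M) →
  (∀ n i, i < n → Tendsto (fun T => S N σ θ L n T i) atTop (𝓝 (Ψ (Y n i)))) →
  Bin σ (fun n i => ms N σ θ n n i) Y M

/-- YSP: `∑_{i<n} a i • S n T' i = ∑_{j<nn N T} (sp n T a j) • S (nn N T) T' j` for `T' ≥ T`
(`SCO`, exchange of the sums, `sp n T a j = θ T j / ms n T (anc σ n j) * a (anc σ n j)`), and the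
limit `T' → ∞`. -/
def YspStmt : Prop := ∀ (X Z : Type) [NormedAddCommGroup X] [NormedSpace ℝ X]
  [NormedAddCommGroup Z] [NormedSpace ℝ Z] (Ψ : X →ₗᵢ[ℝ] Z) (N : ℕ → ℕ) (p : ℕ → ℕ → ℝ)
  (s : ℕ → ℕ → ℕ) (σ : ℕ → ℕ) (θ : ℕ → ℕ → ℝ) (L : ℕ → ℕ → Z) (Y : ℕ → ℕ → X),
  Tree N p s σ θ →
  (∀ n i, i < n → Tendsto (fun T => S N σ θ L n T i) atTop (𝓝 (Ψ (Y n i)))) →
  ∀ (n T : ℕ) (a : ℕ → ℝ), 1 ≤ n → n ≤ nn N T →
    ∑ i ∈ range n, a i • Y n i = ∑ j ∈ range (nn N T), sp N σ θ n T a j • Y (nn N T) j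

/-- CMP: the norms of the combinations at the stage `t`. `J T (sp (nn N t) T a) =
∑ a i • S (nn N t) T i` (`VEC`) tends to `Ψ (∑ a i • Y (nn N t) i)`. Upper: `UPS` with `z = 0`,
`sp (nn N t) t a = a` (`SPS` (3)), `ETP`. Lower: `LOS` with `b = sp (nn N t) T a` and
`SPS` (1). -/
def CmpStmt : Prop := ∀ (X Z : Type) [NormedAddCommGroup X] [NormedSpace ℝ X]
  [NormedAddCommGroup Z] [NormedSpace ℝ Z] (Ψ : X →ₗᵢ[ℝ] Z) (N : ℕ → ℕ) (p : ℕ → ℕ → ℝ)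
  (s : ℕ → ℕ → ℕ) (σ : ℕ → ℕ) (θ : ℕ → ℕ → ℝ) (L : ℕ → ℕ → Z) (y : ℕ → X) (C M : ℝ)
  (Y : ℕ → ℕ → X), Tree N p s σ θ → Vals Ψ N p s L y C M →
  (∀ n i, i < n → Tendsto (fun T => S N σ θ L n T i) atTop (𝓝 (Ψ (Y n i)))) →
  ∀ (t : ℕ) (a : ℕ → ℝ), ‖J N L t a‖ ≤ 2 * ‖∑ i ∈ range (nn N t), a i • Y (nn N t) i‖ ∧
    ‖∑ i ∈ range (nn N t), a i • Y (nn N t) i‖ ≤ 2 * ‖J N L t a‖

/-- PRJ: the projections. Let `nn N t ≤ n < nn N (t + 1)`, `n = nn N t + (m - 1)` (`NNB`), and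
`T ≥ t + 1` with `n' ≤ nn N T`. Let `b = sp n' T a`; `∑ a j • Y n' j = ∑ b j • Y (nn N T) j`
(`YSP`) has norm `≥ ‖J T b‖ / 2` (`CMP`) `≥ ‖J (t + 1) b'‖ / 4`, `b' = cl (nn N (t + 1)) T b`
(`LOS`) `≥ ‖J (t + 1) (sp n (t + 1) (cl n (t + 1) b'))‖ / (4 C)` (`INS`)
`≥ ‖∑ sp n (t + 1) (..) j • Y (nn N (t + 1)) j‖ / (8 C)` (`CMP`) `= ‖∑ (cl n (t + 1) b') i •
Y n i‖ / (8 C)` (`YSP`), and `cl n (t + 1) b' i = cl n T b i` (`CLC` (2)) is the sum of `a j` over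
`j < n'` with `anc σ n j = i` (group `cl n T (sp n' T a)` by `anc σ n' j`; `SPS` (1)). -/
def PrjStmt : Prop := ∀ (X Z : Type) [NormedAddCommGroup X] [NormedSpace ℝ X]
  [NormedAddCommGroup Z] [NormedSpace ℝ Z] (Ψ : X →ₗᵢ[ℝ] Z) (N : ℕ → ℕ) (p : ℕ → ℕ → ℝ)
  (s : ℕ → ℕ → ℕ) (σ : ℕ → ℕ) (θ : ℕ → ℕ → ℝ) (L : ℕ → ℕ → Z) (y : ℕ → X) (C M : ℝ)
  (Y : ℕ → ℕ → X), Tree N p s σ θ → Vals Ψ N p s L y C M → 1 ≤ C →
  (∀ n i, i < n → Tendsto (fun T => S N σ θ L n T i) atTop (𝓝 (Ψ (Y n i)))) →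
  ∀ (n n' : ℕ) (a : ℕ → ℝ), 1 ≤ n → n ≤ n' →
    ‖∑ i ∈ range n, (∑ j ∈ range n' with anc σ n j = i, a j) • Y n i‖ ≤
      8 * C * ‖∑ j ∈ range n', a j • Y n' j‖

/-- NZB: the basis vectors are not zero. `n = nn N t + (m - 1)` (`NNB`), `a` = indicator of `σ n`
minus indicator of `n`, `c = sp (n + 1) (t + 1) a`: `bs σ Y n = ∑ c j • Y (nn N (t + 1)) j`
(`YSP`), so if it is zero then `J (t + 1) c = 0` (`CMP`). `c i = 0` for `i < nn N t`, `i ≠ us t`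
(the fibre of such an `i` is `{i}`, and `σ n` is an `ix j`); so
`∑_{j < N t} c (ix j) • L (t + 1) (ix j) = 0`, `∑ c (ix j) = ∑ cl .. = 0` (`SPS` (1)), and
`Step.nz` gives `c (ix m) = 0` (`ix m = n`), but it is `- θ (t + 1) n / ms (n + 1) (t + 1) n < 0`.
`bs σ Y 0 = Y 1 0`: `CMP` for `t = 0` and `root`. -/
def NzbStmt : Prop := ∀ (X Z : Type) [NormedAddCommGroup X] [NormedSpace ℝ X]
  [NormedAddCommGroup Z] [NormedSpace ℝ Z] (Ψ : X →ₗᵢ[ℝ] Z) (N : ℕ → ℕ) (p : ℕ → ℕ → ℝ)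
  (s : ℕ → ℕ → ℕ) (σ : ℕ → ℕ) (θ : ℕ → ℕ → ℝ) (L : ℕ → ℕ → Z) (y : ℕ → X) (C M : ℝ)
  (Y : ℕ → ℕ → X), Tree N p s σ θ → Vals Ψ N p s L y C M →
  (∀ n i, i < n → Tendsto (fun T => S N σ θ L n T i) atTop (𝓝 (Ψ (Y n i)))) →
  ∀ n, bs σ Y n ≠ 0

/-- DVA: every path diverges. Let `Y n (i n)` be Cauchy, so there is `n ≥ 1` with
`‖Y n' (i n') - Y n (i n)‖ ≤ δ / 8` for all `n' ≥ n`. Take `T ≥ n` (so `n ≤ nn N T`) with
`‖S n T (i n) - Ψ (Y n (i n))‖ ≤ δ / 4`. Let `k = i (nn N T)` and `a` = indicator of `k` minus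
`sp n T (indicator of i n)`. `J T a = L T k - S n T (i n)` (`VEC`), and
`∑ a j • Y (nn N T) j = Y (nn N T) k - Y n (i n)` (`YSP`), so
`‖L T k - S n T (i n)‖ ≤ 2 * δ / 8` (`CMP`) and `‖L T k - Ψ (Y n (i n))‖ ≤ δ / 2`. -/
def DvaStmt : Prop := ∀ (X Z : Type) [NormedAddCommGroup X] [NormedSpace ℝ X]
  [NormedAddCommGroup Z] [NormedSpace ℝ Z] (Ψ : X →ₗᵢ[ℝ] Z) (N : ℕ → ℕ) (p : ℕ → ℕ → ℝ)
  (s : ℕ → ℕ → ℕ) (σ : ℕ → ℕ) (θ : ℕ → ℕ → ℝ) (L : ℕ → ℕ → Z) (y : ℕ → X) (C M δ : ℝ)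
  (Y : ℕ → ℕ → X), Tree N p s σ θ → Vals Ψ N p s L y C M →
  (∀ n i, i < n → Tendsto (fun T => S N σ θ L n T i) atTop (𝓝 (Ψ (Y n i)))) → 0 < δ →
  (∀ t i, i < nn N t → ∀ x : X, δ ≤ ‖L t i - Ψ x‖) →
  ∀ i : ℕ → ℕ, Path σ i → ¬ CauchySeq fun n => Y n (i n)

/-! ### basis and curve -/

/-- BSQ: the basic sequence. `∑_{i<n} β i • bs i = ∑_{j<n} (A n j) • Y n j` (`n ≥ 1`) with
`A 1 j = β 0` and, for `n ≥ 1`, `A (n + 1) j = A n j` (`j < n`, `j ≠ σ n`),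
`A (n + 1) (σ n) = w (n + 1) (σ n) / w n (σ n) * A n (σ n) + β n`,
`A (n + 1) n = w (n + 1) n / w n (σ n) * A n (σ n) - β n` (`Bin.y1, y2`). By `w2` the sum of
`A (n + 1)` over `anc σ n j = i` is `A n i`, hence (induction on `n'`, `ANC`) the sum of `A n'` over
`j < n'`, `anc σ n j = i` is `A n i`. So the hypothesis with `a = A n'` is the claim. -/
def BsqStmt : Prop := ∀ (X : Type) [NormedAddCommGroup X] [NormedSpace ℝ X] (σ : ℕ → ℕ)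
  (w : ℕ → ℕ → ℝ) (Y : ℕ → ℕ → X) (M K : ℝ), Bin σ w Y M → 0 ≤ K →
  (∀ (n n' : ℕ) (a : ℕ → ℝ), 1 ≤ n → n ≤ n' →
    ‖∑ i ∈ range n, (∑ j ∈ range n' with anc σ n j = i, a j) • Y n i‖ ≤
      K * ‖∑ j ∈ range n', a j • Y n' j‖) →
  ∀ (β : ℕ → ℝ) (m n : ℕ), m ≤ n →
    ‖∑ i ∈ range m, β i • bs σ Y i‖ ≤ K * ‖∑ i ∈ range n, β i • bs σ Y i‖

/-- SPN: `Y (n + 1) (σ n) = Y n (σ n) + (w (n + 1) n / w n (σ n)) • bs n`,
`Y (n + 1) n = Y n (σ n) - (w (n + 1) (σ n) / w n (σ n)) • bs n`; induction. -/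
def SpnStmt : Prop := ∀ (X : Type) [NormedAddCommGroup X] [NormedSpace ℝ X] (σ : ℕ → ℕ)
  (w : ℕ → ℕ → ℝ) (Y : ℕ → ℕ → X) (M : ℝ), Bin σ w Y M →
  ∀ n i, i < n → Y n i ∈ Submodule.span ℝ (Set.range (bs σ Y))

/-- CRV (helper33): the curve. The leaf `i` of the time `n` is an interval of length `w n i`
(left end point `0` for `i = 0`, `n = 1`; the interval of `σ n` is divided into the left part
`σ n` and the right part `n`); `g` has the slope `Y n i` on the interval of the leaf `i`. Every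
`x ∈ (0, 1)` is in the interval of `i n` for a path `i`; the lengths tend to zero (otherwise the
path and so `Y n (i n)` is eventually constant); if `g` is differentiable at `x` then
`Y n (i n)` converges. -/
def CrvStmt : Prop := ∀ (X : Type) [NormedAddCommGroup X] [NormedSpace ℝ X] [CompleteSpace X]
  (W : Submodule ℝ X) (σ : ℕ → ℕ) (w : ℕ → ℕ → ℝ) (Y : ℕ → ℕ → X) (M : ℝ),
  IsClosed (W : Set X) → Bin σ w Y M → (∀ n i, i < n → Y n i ∈ W) →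
  (∀ i : ℕ → ℕ, Path σ i → ¬ CauchySeq fun n => Y n (i n)) →
  ∃ f : ℝ → X, (∀ t, f t ∈ W) ∧ (∃ K : NNReal, LipschitzWith K f) ∧
    ¬ (∀ᵐ t ∂MeasureTheory.volume, DifferentiableAt ℝ f t)

/-- FNA: `Y` = the closure of the span of `z`; `BC.SchStmt` and `CRV`. -/
def FnaStmt : Prop := ∀ (X : Type) [NormedAddCommGroup X] [NormedSpace ℝ X] [CompleteSpace X]
  (z : ℕ → X) (K : ℝ) (σ : ℕ → ℕ) (w : ℕ → ℕ → ℝ) (Y : ℕ → ℕ → X) (M : ℝ), (∀ i, z i ≠ 0) →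
  (∀ (a : ℕ → ℝ) (m n : ℕ), m ≤ n →
    ‖∑ i ∈ range m, a i • z i‖ ≤ K * ‖∑ i ∈ range n, a i • z i‖) →
  Bin σ w Y M → (∀ n i, i < n → Y n i ∈ (Submodule.span ℝ (Set.range z)).topologicalClosure) →
  (∀ i : ℕ → ℕ, Path σ i → ¬ CauchySeq fun n => Y n (i n)) → Concl X

/-! ### the runs -/

/-- RNA: the run of a machine. Dependent choice: the state at the stage `t` is `(n, loc)` with
`Inv n loc` and the finite set `Q` of the vectors `y` found so far; apply `Mach.step` to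
`u = us t < n` (`t + 1 ≤ n`), `η = et t`. With `N, p, s, l, y` of the stage `t`:
`n = nn N t` (`NNB`), `L t i = val (loc_t i)`; `Ln` gives `L (t + 1) (ix n u j) = val (l j)` and
`L (t + 1) i = L t i` for `i < n`, `i ≠ u`. `TRE` gives `σ, θ`. `C' = max C 1` (`inn` is
monotone in `C`). -/
def RnaStmt : Prop := ∀ (X Z : Type) [NormedAddCommGroup X] [NormedSpace ℝ X]
  [NormedAddCommGroup Z] [NormedSpace ℝ Z] (Ψ : X →ₗᵢ[ℝ] Z) (Λ : Type) (val : Λ → Z)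
  (Inv : ℕ → (ℕ → Λ) → Prop) (τ C M δ : ℝ), Mach Ψ val Inv τ C M δ →
  ∃ (N : ℕ → ℕ) (p : ℕ → ℕ → ℝ) (s : ℕ → ℕ → ℕ) (σ : ℕ → ℕ) (θ : ℕ → ℕ → ℝ) (L : ℕ → ℕ → Z)
    (y : ℕ → X), Tree N p s σ θ ∧ Vals Ψ N p s L y (max C 1) M ∧
    (∀ t, Ret Ψ (Bs Ψ (L t) (nn N t) (us t) (y '' Set.Iio t)) (L t (us t)) (N t) (p t)
      (fun j => L (t + 1) (ix (nn N t) (us t) j)) (et t) τ (y t)) ∧
    ∀ t i, i < nn N t → ∀ x : X, δ ≤ ‖L t i - Ψ x‖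

/-- the theorem for ALPHA and BETA: `RNA`, `LIM`, `BIN`, `PRJ`, `BSQ` (`K = 8 max C 1`), `NZB`,
`SPN`, `DVA`, `FNA` -/
def EnaStmt : Prop := ∀ (X Z : Type) [NormedAddCommGroup X] [NormedSpace ℝ X] [CompleteSpace X]
  [NormedAddCommGroup Z] [NormedSpace ℝ Z] (Ψ : X →ₗᵢ[ℝ] Z) (Λ : Type) (val : Λ → Z)
  (Inv : ℕ → (ℕ → Λ) → Prop) (τ C M δ : ℝ), 0 < τ → τ ≤ 1 → 0 < δ →
  Mach Ψ val Inv τ C M δ → Concl X

/-- RNP: the run of a PC machine. Dependent choice as in `RNA` with `η = et t`; the chains are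
`s t m = 0`. The vectors: `z i` = the value of the basis vector `i` at any stage with `i < d t`
(`d t ≥ t`). `m ≤ n`: `∑_{i<m}` at the stage `t` with `d t ≤ m ≤ d (t + 1)`: inner constant `C`,
then the factors `1 + et q` for `q > t` up to a stage with `n ≤ d T` (apply it to `a` cut off at
`n`): `K = 2 max C 1` (`ETP`). -/
def RnpStmt : Prop := ∀ (X : Type) [NormedAddCommGroup X] [NormedSpace ℝ X] (Λ : Type)
  (val : Λ → X) (lab : Λ → ℕ) (Inv : ℕ → (ℕ → X) → ℕ → (ℕ → Λ) → Prop) (C M δ : ℝ)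
  (ε : ℕ → ℝ), MachP val lab Inv C M δ ε →
  ∃ (N : ℕ → ℕ) (p : ℕ → ℕ → ℝ) (s : ℕ → ℕ → ℕ) (σ : ℕ → ℕ) (θ : ℕ → ℕ → ℝ)
    (loc : ℕ → ℕ → Λ) (z : ℕ → X), Tree N p s σ θ ∧
    (∀ i, z i ≠ 0) ∧ (∀ (a : ℕ → ℝ) (m n : ℕ), m ≤ n →
      ‖∑ i ∈ range m, a i • z i‖ ≤ 2 * max C 1 * ‖∑ i ∈ range n, a i • z i‖) ∧
    (∀ t i, i < nn N t → ‖val (loc t i)‖ ≤ M ∧
      val (loc t i) ∈ Submodule.span ℝ (Set.range z)) ∧
    (∀ t i, i < nn N t → i ≠ us t → loc (t + 1) i = loc t i) ∧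
    ∀ t, ∑ j ∈ range (N t), p t j • val (loc (t + 1) (ix (nn N t) (us t) j)) =
        val (loc t (us t)) ∧
      ∀ j, j < N t →
        (lab (loc (t + 1) (ix (nn N t) (us t) j)) = lab (loc t (us t)) ∧
          ε (lab (loc t (us t))) ≤
            ‖val (loc (t + 1) (ix (nn N t) (us t) j)) - val (loc t (us t))‖) ∨
        (lab (loc (t + 1) (ix (nn N t) (us t) j)) = lab (loc t (us t)) + 1 ∧
          δ ≤ ‖val (loc (t + 1) (ix (nn N t) (us t) j)) - val (loc t (us t))‖)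

/-- EXA: an exact martingale. `S n (T + 1) i = S n T i` for `n ≤ nn N T` (`SPS` (2), `VEC` for the
indicator of `i`, `SPL`), so the limit is attained at the stage `n` (`n ≤ nn N n`). -/
def ExaStmt : Prop := ∀ (X : Type) [NormedAddCommGroup X] [NormedSpace ℝ X] (N : ℕ → ℕ)
  (p : ℕ → ℕ → ℝ) (s : ℕ → ℕ → ℕ) (σ : ℕ → ℕ) (θ : ℕ → ℕ → ℝ) (L : ℕ → ℕ → X),
  Tree N p s σ θ → (∀ t i, i < nn N t → i ≠ us t → L (t + 1) i = L t i) →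
  (∀ t, ∑ j ∈ range (N t), p t j • L (t + 1) (ix (nn N t) (us t) j) = L t (us t)) →
  ∀ n i, i < n → (∀ T, n ≤ nn N T → S N σ θ L n (T + 1) i = S N σ θ L n T i) ∧
    Tendsto (fun T => S N σ θ L n T i) atTop (𝓝 (S N σ θ L n n i))

/-- PTH: for a path `i` let `k t = i (nn N t)`. If `k t ≠ us t` then `k (t + 1) = k t`; if
`k t = us t` then `k (t + 1) = ix (nn N t) (us t) j` with `j < N t`
(`anc σ (nn N t) (i (nn N (t + 1))) = i (nn N t)` by induction along the path with `ANC`; the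
fibres are known from `LOC` with `m = 1`). `k t = us t` for infinitely many `t`: otherwise `k` is
constant from some `t` on, and `us` takes every value infinitely often (`NNB`). -/
def PthStmt : Prop := ∀ (N : ℕ → ℕ) (p : ℕ → ℕ → ℝ) (s : ℕ → ℕ → ℕ) (σ : ℕ → ℕ) (θ : ℕ → ℕ → ℝ),
  Tree N p s σ θ → ∀ i : ℕ → ℕ, Path σ i →
    (∀ t, i (nn N t) ≠ us t → i (nn N (t + 1)) = i (nn N t)) ∧
    (∀ t, i (nn N t) = us t → ∃ j, j < N t ∧ i (nn N (t + 1)) = ix (nn N t) (us t) j) ∧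
    ∀ t, ∃ t', t ≤ t' ∧ i (nn N t') = us t'

/-- DVP: every path diverges (PC). With `k t = i (nn N t)`, `L t i = val (loc t i)`:
`S (nn N t) T (k t) = L t (k t)` for all `T ≥ t` (`EXA`, `VEC`). The label `lab (loc t (k t))` is
nondecreasing (`PTH`); if it is unbounded there are infinitely many `t` with
`δ ≤ ‖L (t + 1) (k (t + 1)) - L t (k t)‖`, otherwise it is constant `= b` from some stage on and
there are infinitely many `t` with `ε b ≤ ‖..‖`: not Cauchy. -/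
def DvpStmt : Prop := ∀ (X : Type) [NormedAddCommGroup X] [NormedSpace ℝ X] (Λ : Type)
  (val : Λ → X) (lab : Λ → ℕ) (δ : ℝ) (ε : ℕ → ℝ) (N : ℕ → ℕ) (p : ℕ → ℕ → ℝ) (s : ℕ → ℕ → ℕ)
  (σ : ℕ → ℕ) (θ : ℕ → ℕ → ℝ) (loc : ℕ → ℕ → Λ), Tree N p s σ θ → 0 < δ → (∀ b, 0 < ε b) →
  (∀ t i, i < nn N t → i ≠ us t → loc (t + 1) i = loc t i) →
  (∀ t, ∑ j ∈ range (N t), p t j • val (loc (t + 1) (ix (nn N t) (us t) j)) =
      val (loc t (us t)) ∧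
    ∀ j, j < N t →
      (lab (loc (t + 1) (ix (nn N t) (us t) j)) = lab (loc t (us t)) ∧
        ε (lab (loc t (us t))) ≤
          ‖val (loc (t + 1) (ix (nn N t) (us t) j)) - val (loc t (us t))‖) ∨
      (lab (loc (t + 1) (ix (nn N t) (us t) j)) = lab (loc t (us t)) + 1 ∧
        δ ≤ ‖val (loc (t + 1) (ix (nn N t) (us t) j)) - val (loc t (us t))‖)) →
  ∀ i : ℕ → ℕ, Path σ i →
    ¬ CauchySeq fun n => S N σ θ (fun t i => val (loc t i)) n n (i n)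

/-- the theorem for PC: `RNP`, `EXA`, `BIN` (`Ψ` = the identity, `Y n i = S n n i`), membership in
the span (`S` is a combination), `DVP`, `FNA` -/
def EnpStmt : Prop := ∀ (X : Type) [NormedAddCommGroup X] [NormedSpace ℝ X] [CompleteSpace X]
  (Λ : Type) (val : Λ → X) (lab : Λ → ℕ) (Inv : ℕ → (ℕ → X) → ℕ → (ℕ → Λ) → Prop) (C M δ : ℝ)
  (ε : ℕ → ℝ), 0 < δ → (∀ b, 0 < ε b) → MachP val lab Inv C M δ ε → Concl X

end Pool.Agent.NE
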