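import Mathlib

/-!
# NE: the common engine for Bourgain's question (MP_d20576_an, S06247)

`X` is a Banach space, `Z` a normed space containing it isometrically (`Ψ : X →ₗᵢ[ℝ] Z`).
A configuration has the leaves `i < n`, the leaf `i` is in the state `loc i : Λ` and has the value
`val (loc i) : Z`. At each time one leaf `u < n` is replaced by `N ≥ 2` children with weights `p j`
(`j < N`): the child `0` keeps the index `u`, the child `j ≥ 1` gets the index `n + (j - 1)`. The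
children are split off one after the other: the child `m` is split off from the child `s m < m`.
-/

set_option autoImplicit false

open Finset Filter Topology

noncomputable section

namespace Pool.Agent.NE

/-- the conclusion of S06247: a closed subspace with a Schauder basis which fails the RNP -/
def Concl (X : Type) [NormedAddCommGroup X] [NormedSpace ℝ X] : Prop :=
  ∃ Y : Submodule ℝ X, IsClosed (Y : Set X) ∧
    (∃ e : ℕ → X, (∀ i, e i ∈ Y) ∧
      ∀ y ∈ Y, ∃! a : ℕ → ℝ,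
        Filter.Tendsto (fun n => ∑ i ∈ Finset.range n, a i • e i) Filter.atTop (nhds y)) ∧
    ∃ f : ℝ → X, (∀ t, f t ∈ Y) ∧ (∃ K : NNReal, LipschitzWith K f) ∧
      ¬ (∀ᵐ t ∂MeasureTheory.volume, DifferentiableAt ℝ f t)

/-- climb from `j` along `s` (with `s i < i`) until the index is smaller than `m`: the member of
the classes `0, …, m - 1` which contains `j` -/
def anc (s : ℕ → ℕ) (m j : ℕ) : ℕ := (fun i => if i < m then i else s i)^[j] j

/-- the sum of `a` over the class of `j` (among `0, …, N - 1`) at the level `m` -/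
def cls (N : ℕ) (s : ℕ → ℕ) (m : ℕ) (a : ℕ → ℝ) (j : ℕ) : ℝ :=
  ∑ i ∈ range N with anc s m i = anc s m j, a i

/-- the conditional expectation at the level `m`: in every class the sum of `a` is distributed
proportionally to `p` -/
def Qs (N : ℕ) (p : ℕ → ℝ) (s : ℕ → ℕ) (m : ℕ) (a : ℕ → ℝ) (j : ℕ) : ℝ :=
  p j / cls N s m p j * cls N s m a j

section

variable {X Z : Type} [NormedAddCommGroup X] [NormedSpace ℝ X]
  [NormedAddCommGroup Z] [NormedSpace ℝ Z]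

/-- the step: the leaf with the value `v` is replaced by `N` children with the values `w j` and the
weights `p j`, `j < N`; `B` contains the values of the other leaves (and finitely many vectors of
`X`) -/
structure Step (B : Submodule ℝ Z) (v : Z) (N : ℕ) (p : ℕ → ℝ) (s : ℕ → ℕ) (w : ℕ → Z)
    (η C : ℝ) : Prop where
  two : 2 ≤ N
  pos : ∀ j, j < N → 0 < p j
  sum : ∑ j ∈ range N, p j = 1
  lt : ∀ m, 1 ≤ m → m < N → s m < m
  up : ∀ b ∈ B, ∀ A : ℝ, ‖b + A • ∑ j ∈ range N, p j • w j‖ ≤ (1 + η) * ‖b + A • v‖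
  lo : ∀ b ∈ B, ∀ a : ℕ → ℝ,
    ‖b + (∑ j ∈ range N, a j) • v‖ ≤ (1 + η) * ‖b + ∑ j ∈ range N, a j • w j‖
  inn : ∀ b ∈ B, ∀ (a : ℕ → ℝ) (m : ℕ), 1 ≤ m → m < N →
    ‖b + ∑ j ∈ range N, Qs N p s m a j • w j‖ ≤ C * ‖b + ∑ j ∈ range N, a j • w j‖
  nz : ∀ a : ℕ → ℝ, ∑ j ∈ range N, a j = 0 → ∑ j ∈ range N, a j • w j = 0 →
    ∀ j, j < N → a j = 0

/-- the return of the proportion `τ` of the leaf to the vector `y` of `X`
(BETA: `τ = 1`, that is `‖∑ p j • w j - Ψ y‖ ≤ η`; ALPHA: `τ = a / 16`; PC: `τ = 1`,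
`∑ p j • w j = v = Ψ y`) -/
def Ret (Ψ : X →ₗᵢ[ℝ] Z) (B : Submodule ℝ Z) (v : Z) (N : ℕ) (p : ℕ → ℝ) (w : ℕ → Z)
    (η τ : ℝ) (y : X) : Prop :=
  ∀ b ∈ B, ∀ A : ℝ, ‖b + A • (∑ j ∈ range N, p j • w j - τ • Ψ y)‖ ≤
    (1 + η) * ‖b + (A * (1 - τ)) • v‖ + η * |A|

/-- the new local data: the child `0` gets the index `u`, the child `j ≥ 1` the index
`n + (j - 1)` -/
def Ln {Λ : Type} (n u : ℕ) (loc l : ℕ → Λ) (i : ℕ) : Λ :=
  if i < n then (if i = u then l 0 else loc i) else l (i - n + 1)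

/-- the span of the values of the leaves other than `u` and of `Ψ Q` -/
def Bs (Ψ : X →ₗᵢ[ℝ] Z) (L : ℕ → Z) (n u : ℕ) (Q : Set X) : Submodule ℝ Z :=
  Submodule.span ℝ (L '' {i | i < n ∧ i ≠ u} ∪ Ψ '' Q)

/-- the machine for ALPHA and BETA: `Inv n loc` is the invariant of a configuration -/
structure Mach (Ψ : X →ₗᵢ[ℝ] Z) {Λ : Type} (val : Λ → Z) (Inv : ℕ → (ℕ → Λ) → Prop)
    (τ C M δ : ℝ) : Prop where
  start : ∃ loc : ℕ → Λ, Inv 1 loc ∧ val (loc 0) ≠ 0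
  bdd : ∀ n loc, Inv n loc → ∀ i, i < n → ‖val (loc i)‖ ≤ M
  far : ∀ n loc, Inv n loc → ∀ i, i < n → ∀ y : X, δ ≤ ‖val (loc i) - Ψ y‖
  step : ∀ n loc, Inv n loc → ∀ u, u < n → ∀ Q : Set X, Q.Finite → ∀ η : ℝ, 0 < η →
    ∃ (N : ℕ) (p : ℕ → ℝ) (s : ℕ → ℕ) (l : ℕ → Λ) (y : X),
      Inv (n + (N - 1)) (Ln n u loc l) ∧
      Step (Bs Ψ (fun i => val (loc i)) n u Q) (val (loc u)) N p s (fun j => val (l j)) η C ∧
      Ret Ψ (Bs Ψ (fun i => val (loc i)) n u Q) (val (loc u)) N p (fun j => val (l j)) η τ y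

/-- the machine for PC: all values are in `X`, the martingale is exact. The state is `(d, z, n,
loc)`: the basis vectors `z i`, `i < d`, found so far, the leaves `i < n`; the values are in the
span of the basis vectors. A leaf has a label `lab`, and each child has the same label and the
displacement `ε (lab)`, or the next label and the displacement `δ`. (The root has the value `0`.) -/
structure MachP {Λ : Type} (val : Λ → X) (lab : Λ → ℕ)
    (Inv : ℕ → (ℕ → X) → ℕ → (ℕ → Λ) → Prop) (C M δ : ℝ) (ε : ℕ → ℝ) : Prop where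
  start : ∃ (z : ℕ → X) (loc : ℕ → Λ), Inv 0 z 1 loc
  bdd : ∀ d z n loc, Inv d z n loc → ∀ i, i < n → ‖val (loc i)‖ ≤ M
  mem : ∀ d z n loc, Inv d z n loc → ∀ i, i < n →
    val (loc i) ∈ Submodule.span ℝ (z '' Set.Iio d)
  step : ∀ d z n loc, Inv d z n loc → ∀ u, u < n → ∀ η : ℝ, 0 < η →
    ∃ (d' : ℕ) (z' : ℕ → X) (N : ℕ) (p : ℕ → ℝ) (l : ℕ → Λ), d < d' ∧
      (∀ i, i < d → z' i = z i) ∧ Inv d' z' (n + (N - 1)) (Ln n u loc l) ∧
      2 ≤ N ∧ (∀ j, j < N → 0 < p j) ∧ ∑ j ∈ range N, p j = 1 ∧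
      ∑ j ∈ range N, p j • val (l j) = val (loc u) ∧
      (∀ i, d ≤ i → i < d' → z' i ≠ 0) ∧
      (∀ a : ℕ → ℝ, ‖∑ i ∈ range d, a i • z' i‖ ≤ (1 + η) * ‖∑ i ∈ range d', a i • z' i‖) ∧
      (∀ (a : ℕ → ℝ) (k : ℕ), d ≤ k → k ≤ d' →
        ‖∑ i ∈ range k, a i • z' i‖ ≤ C * ‖∑ i ∈ range d', a i • z' i‖) ∧
      ∀ j, j < N → (lab (l j) = lab (loc u) ∧ ε (lab (loc u)) ≤ ‖val (l j) - val (loc u)‖) ∨
        (lab (l j) = lab (loc u) + 1 ∧ δ ≤ ‖val (l j) - val (loc u)‖)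

end

/-! ### the run -/

/-- the leaf which is replaced at the stage `t` -/
def us (t : ℕ) : ℕ := (Nat.unpair t).1

/-- the number of leaves at the stage `t`, if the leaf `us q` is replaced by `N q` children -/
def nn (N : ℕ → ℕ) (t : ℕ) : ℕ := 1 + ∑ q ∈ range t, (N q - 1)

/-- the index of the child `j` -/
def ix (n u j : ℕ) : ℕ := if j = 0 then u else n + (j - 1)

/-- the tolerances -/
def et (t : ℕ) : ℝ := (1 / 2 : ℝ) ^ (t + 3)

/-- the combinatorial data of a run: `N t` children at the stage `t` with the weights `p t` and the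
chain `s t`; `σ` is the global chain (the index `i ≥ 1` is split off from `σ i < i`), `θ t i` the
weight of the leaf `i` at the stage `t` -/
structure Tree (N : ℕ → ℕ) (p : ℕ → ℕ → ℝ) (s : ℕ → ℕ → ℕ) (σ : ℕ → ℕ) (θ : ℕ → ℕ → ℝ) :
    Prop where
  two : ∀ t, 2 ≤ N t
  pos : ∀ t j, j < N t → 0 < p t j
  sum : ∀ t, ∑ j ∈ range (N t), p t j = 1
  lt : ∀ t m, 1 ≤ m → m < N t → s t m < m
  sg : ∀ t m, 1 ≤ m → m < N t → σ (nn N t + (m - 1)) = ix (nn N t) (us t) (s t m)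
  th0 : θ 0 0 = 1
  th1 : ∀ t j, j < N t → θ (t + 1) (ix (nn N t) (us t) j) = p t j * θ t (us t)
  th2 : ∀ t i, i < nn N t → i ≠ us t → θ (t + 1) i = θ t i

section

variable {X Z : Type} [NormedAddCommGroup X] [NormedSpace ℝ X]
  [NormedAddCommGroup Z] [NormedSpace ℝ Z]

/-- the values of a run: `L t i` is the value of the leaf `i < nn N t` at the stage `t` -/
structure Vals (Ψ : X →ₗᵢ[ℝ] Z) (N : ℕ → ℕ) (p : ℕ → ℕ → ℝ) (s : ℕ → ℕ → ℕ)
    (L : ℕ → ℕ → Z) (y : ℕ → X) (C M : ℝ) : Prop where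
  root : L 0 0 ≠ 0
  bdd : ∀ t i, i < nn N t → ‖L t i‖ ≤ M
  keep : ∀ t i, i < nn N t → i ≠ us t → L (t + 1) i = L t i
  step : ∀ t, Step (Bs Ψ (L t) (nn N t) (us t) (y '' Set.Iio t)) (L t (us t)) (N t) (p t) (s t)
    (fun j => L (t + 1) (ix (nn N t) (us t) j)) (et t) C

/-- the combination of the leaves at the stage `t` -/
def J (N : ℕ → ℕ) (L : ℕ → ℕ → Z) (t : ℕ) (a : ℕ → ℝ) : Z := ∑ i ∈ range (nn N t), a i • L t i

/-- the sum of the coefficients (stage `T`) over the leaves which are below the leaf `i` of the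
time `n` (the time with `n` leaves) -/
def cl (N : ℕ → ℕ) (σ : ℕ → ℕ) (n T : ℕ) (b : ℕ → ℝ) (i : ℕ) : ℝ :=
  ∑ j ∈ range (nn N T) with anc σ n j = i, b j

/-- the weight of the leaf `i < n` of the time `n`, computed at the stage `T` -/
def ms (N : ℕ → ℕ) (σ : ℕ → ℕ) (θ : ℕ → ℕ → ℝ) (n T i : ℕ) : ℝ := cl N σ n T (θ T) i

/-- the coefficients `a i`, `i < n`, of the time `n` distributed over the leaves of the stage
`T` -/
def sp (N : ℕ → ℕ) (σ : ℕ → ℕ) (θ : ℕ → ℕ → ℝ) (n T : ℕ) (a : ℕ → ℝ) (j : ℕ) : ℝ :=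
  θ T j / ms N σ θ n T (anc σ n j) * a (anc σ n j)

/-- the value of the leaf `i < n` of the time `n`, computed at the stage `T` -/
def S (N : ℕ → ℕ) (σ : ℕ → ℕ) (θ : ℕ → ℕ → ℝ) (L : ℕ → ℕ → Z) (n T i : ℕ) : Z :=
  (ms N σ θ n T i)⁻¹ • ∑ j ∈ range (nn N T) with anc σ n j = i, θ T j • L T j

end

/-! ### the limit object -/

/-- a path -/
def Path (σ : ℕ → ℕ) (i : ℕ → ℕ) : Prop :=
  ∀ n, 1 ≤ n → i n < n ∧ (i (n + 1) = i n ∨ (i n = σ n ∧ i (n + 1) = n))

/-- a bounded binary martingale with values in `X`: at the time `n ≥ 1` there are the leaves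
`i < n` with the weights `w n i` and the values `Y n i`, and the leaf `σ n` is divided into the
leaves `σ n` and `n` -/
structure Bin {X : Type} [NormedAddCommGroup X] [NormedSpace ℝ X] (σ : ℕ → ℕ)
    (w : ℕ → ℕ → ℝ) (Y : ℕ → ℕ → X) (M : ℝ) : Prop where
  lt : ∀ n, 1 ≤ n → σ n < n
  one : w 1 0 = 1
  pos : ∀ n i, i < n → 0 < w n i
  w1 : ∀ n i, i < n → i ≠ σ n → w (n + 1) i = w n i
  w2 : ∀ n, 1 ≤ n → w n (σ n) = w (n + 1) (σ n) + w (n + 1) n
  y1 : ∀ n i, i < n → i ≠ σ n → Y (n + 1) i = Y n i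
  y2 : ∀ n, 1 ≤ n →
    w n (σ n) • Y n (σ n) = w (n + 1) (σ n) • Y (n + 1) (σ n) + w (n + 1) n • Y (n + 1) n
  bdd : ∀ n i, i < n → ‖Y n i‖ ≤ M

/-- the basis -/
def bs {X : Type} [NormedAddCommGroup X] (σ : ℕ → ℕ) (Y : ℕ → ℕ → X) (n : ℕ) : X :=
  if n = 0 then Y 1 0 else Y (n + 1) (σ n) - Y (n + 1) n

end Pool.Agent.NE
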